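import Pool.Agent.R103.GogMain

/-!
# Left GOGAm trapezoids and right Magog trapezoids are equinumerous
-/

namespace Pool.Agent.Results.MP_b6786a_co.LeftGogamRightMagog

open Pool.Agent.R103.Gog

/-- For all `1 ≤ k ≤ n` there are as many `(n, k)` left GOGAm trapezoids as `(n, k)` right Magog
trapezoids. -/
theorem result (n k : ℕ) (hk : 1 ≤ k) (hkn : k ≤ n) :
    (leftTrapezoids n k (IsGOGAm n)).Finite ∧ (rightTrapezoids n k (IsMagog n)).Finite ∧
      (leftTrapezoids n k (IsGOGAm n)).ncard = (rightTrapezoids n k (IsMagog n)).ncard :=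
  ⟨finite_left (by omega), finite_right (by omega), main hk hkn⟩

end Pool.Agent.Results.MP_b6786a_co.LeftGogamRightMagog
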